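import Pool.Agent.Y670.KC.Stm2

set_option autoImplicit false

/-! Project KC, job ELEM: `A` is an elementary substructure of `A` with isolated points. -/

namespace Pool.Agent.Y688.KC

open Pool.Agent.Helper941.Dim
open Pool.Agent.Helper750.UC (BinL binStr BinRel)
open Pool.Agent.Y670.KC
open FirstOrder FirstOrder.Language

/-- terms are variables -/
theorem term_map (R R' : ℕ → ℕ → ℕ → Prop) (f : ℕ ≃ ℕ) {γ : Type} (v : γ → ℕ)
    (t : BinL.Term γ) :
    @Term.realize BinL ℕ (binStr R') γ (f ∘ v) t = f (@Term.realize BinL ℕ (binStr R) γ v t) := by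
  cases t with
  | var a => rfl
  | func g ts => exact Empty.elim g

/-- formulas are preserved by maps which preserve the first relations -/
theorem form_map {α : Type} {l : ℕ} (φ : BinL.BoundedFormula α l) : ∃ N : ℕ,
    ∀ (R R' : ℕ → ℕ → ℕ → Prop) (f : ℕ ≃ ℕ),
      (∀ i < N, ∀ x y, R i x y ↔ R' i (f x) (f y)) → ∀ (v : α → ℕ) (xs : Fin l → ℕ),
        (@BoundedFormula.Realize BinL ℕ (binStr R) α l φ v xs ↔
          @BoundedFormula.Realize BinL ℕ (binStr R') α l φ (f ∘ v) (f ∘ xs)) := by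
  induction φ with
  | falsum => exact ⟨0, fun R R' f _ v xs => Iff.rfl⟩
  | equal t₁ t₂ =>
    refine ⟨0, fun R R' f _ v xs => ?_⟩
    have h : (Sum.elim (f ∘ v) (f ∘ xs)) = f ∘ Sum.elim v xs := (Sum.comp_elim f v xs).symm
    change (@Term.realize BinL ℕ (binStr R) _ (Sum.elim v xs) t₁ =
      @Term.realize BinL ℕ (binStr R) _ (Sum.elim v xs) t₂) ↔
      (@Term.realize BinL ℕ (binStr R') _ (Sum.elim (f ∘ v) (f ∘ xs)) t₁ =
      @Term.realize BinL ℕ (binStr R') _ (Sum.elim (f ∘ v) (f ∘ xs)) t₂)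
    rw [h, term_map R R' f, term_map R R' f]
    exact f.injective.eq_iff.symm
  | rel r ts =>
    cases r with
    | r i =>
      refine ⟨i + 1, fun R R' f hf v xs => ?_⟩
      have h : (Sum.elim (f ∘ v) (f ∘ xs)) = f ∘ Sum.elim v xs := (Sum.comp_elim f v xs).symm
      change R i (@Term.realize BinL ℕ (binStr R) _ (Sum.elim v xs) (ts 0))
        (@Term.realize BinL ℕ (binStr R) _ (Sum.elim v xs) (ts 1)) ↔
        R' i (@Term.realize BinL ℕ (binStr R') _ (Sum.elim (f ∘ v) (f ∘ xs)) (ts 0))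
        (@Term.realize BinL ℕ (binStr R') _ (Sum.elim (f ∘ v) (f ∘ xs)) (ts 1))
      rw [h, term_map R R' f, term_map R R' f]
      exact hf i (Nat.lt_succ_self i) _ _
  | imp f₁ f₂ ih₁ ih₂ =>
    obtain ⟨N₁, h₁⟩ := ih₁
    obtain ⟨N₂, h₂⟩ := ih₂
    refine ⟨max N₁ N₂, fun R R' f hf v xs => ?_⟩
    exact imp_congr (h₁ R R' f (fun i hi => hf i (lt_of_lt_of_le hi (le_max_left _ _))) v xs)
      (h₂ R R' f (fun i hi => hf i (lt_of_lt_of_le hi (le_max_right _ _))) v xs)
  | all g ih =>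
    obtain ⟨N, h⟩ := ih
    refine ⟨N, fun R R' f hf v xs => ?_⟩
    have h1 : ∀ x, Fin.snoc (f ∘ xs) (f x) = f ∘ Fin.snoc xs x := fun x => by
      rw [Fin.comp_snoc]
    constructor
    · intro hall y
      obtain ⟨x, rfl⟩ := f.surjective y
      have h2 := (h R R' f hf v (Fin.snoc xs x)).1 (hall x)
      rw [← h1] at h2
      exact h2
    · intro hall x
      have h2 := hall (f x)
      rw [h1] at h2
      exact (h R R' f hf v (Fin.snoc xs x)).2 h2

/-- extension of a finite injection -/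
theorem exists_ext (F : Finset ℕ) (h : ℕ → ℕ) (hh : Function.Injective h) :
    ∃ f : ℕ ≃ ℕ, ∀ z ∈ F, f z = h z := by
  classical
  have h1 : MulAction.IsMultiplyPretransitive (Equiv.Perm ℕ) ℕ F.card :=
    Equiv.Perm.isMultiplyPretransitive ℕ F.card
  let e : Fin F.card ↪ ℕ := F.equivFin.symm.toEmbedding.trans (Function.Embedding.subtype _)
  obtain ⟨g, hg⟩ := (MulAction.isMultiplyPretransitive_iff.1 h1) e (e.trans ⟨h, hh⟩)
  refine ⟨g, fun z hz => ?_⟩
  have h2 := congrArg (fun q : Fin F.card ↪ ℕ => q (F.equivFin ⟨z, hz⟩)) hg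
  have h3 : e (F.equivFin ⟨z, hz⟩) = z := by
    simp [e]
  change g (e (F.equivFin ⟨z, hz⟩)) = h (e (F.equivFin ⟨z, hz⟩)) at h2
  rw [h3] at h2
  exact h2

theorem elem_of (A B : Str) (hA : FinRel A) (h : ℕ → ℕ) (hh : Function.Injective h)
    (hB : ∀ i u v, B i u v ↔ ∃ z w, u = h z ∧ v = h w ∧ A i z w) : ElemMap A B h := by
  classical
  intro n φ x
  obtain ⟨N, hN⟩ := form_map φ
  have hfin : (⋃ i ∈ Finset.range N, {p : ℕ × ℕ | A i p.1 p.2}).Finite :=
    Set.Finite.biUnion (Finset.finite_toSet _) fun i _ => hA i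
  let F : Finset ℕ := (hfin.toFinset.image Prod.fst ∪ hfin.toFinset.image Prod.snd) ∪
    Finset.univ.image x
  have hF : ∀ i < N, ∀ z w, A i z w → z ∈ F ∧ w ∈ F := by
    intro i hi z w hzw
    have h1 : (z, w) ∈ hfin.toFinset := by
      rw [Set.Finite.mem_toFinset]
      exact Set.mem_biUnion (Finset.mem_coe.2 (Finset.mem_range.2 hi)) hzw
    exact ⟨Finset.mem_union_left _ (Finset.mem_union_left _ (Finset.mem_image.2 ⟨_, h1, rfl⟩)),
      Finset.mem_union_left _ (Finset.mem_union_right _ (Finset.mem_image.2 ⟨_, h1, rfl⟩))⟩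
  obtain ⟨f, hf⟩ := exists_ext F h hh
  have h1 : ∀ i < N, ∀ z w, A i z w ↔ B i (f z) (f w) := by
    intro i hi z w
    rw [hB]
    constructor
    · intro hzw
      obtain ⟨hz, hw⟩ := hF i hi z w hzw
      exact ⟨z, w, hf z hz, hf w hw, hzw⟩
    · rintro ⟨z', w', hz, hw, hzw⟩
      obtain ⟨hz', hw'⟩ := hF i hi z' w' hzw
      rw [← hf z' hz'] at hz
      rw [← hf w' hw'] at hw
      rw [f.injective hz, f.injective hw]
      exact hzw
  have h3 : f ∘ x = h ∘ x := by
    funext j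
    exact hf _ (Finset.mem_union_right _ (Finset.mem_image_of_mem _ (Finset.mem_univ _)))
  have key : ∀ d d' : Fin 0 → ℕ, (@BoundedFormula.Realize BinL ℕ (binStr A) _ 0 φ x d ↔
      @BoundedFormula.Realize BinL ℕ (binStr B) _ 0 φ (h ∘ x) d') := by
    intro d d'
    have h2 := hN A B f h1 x d
    have h4 : f ∘ d = d' := Subsingleton.elim _ _
    rw [h3, h4] at h2
    exact h2
  unfold Formula.Realize
  exact (key _ _).symm

theorem t_ELEM : Pool.Agent.Y670.KC.Stm_ELEM := by
  intro A hA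
  refine ⟨fun m => ?_, ?_⟩
  · refine elem_of A _ hA _ (fun a b hab => ?_) fun i u v => ?_
    · change a + m = b + m at hab
      omega
    · unfold addFin
      constructor
      · rintro ⟨h1, h2, h3⟩
        exact ⟨u - m, v - m, by omega, by omega, h3⟩
      · rintro ⟨z, w, rfl, rfl, h3⟩
        refine ⟨by omega, by omega, ?_⟩
        rw [Nat.add_sub_cancel, Nat.add_sub_cancel]
        exact h3
  · refine elem_of A _ hA _ (fun a b hab => ?_) fun i u v => ?_
    · change 2 * a = 2 * b at hab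
      omega
    · unfold addInf
      constructor
      · rintro ⟨h1, h2, h3⟩
        exact ⟨u / 2, v / 2, by omega, by omega, h3⟩
      · rintro ⟨z, w, rfl, rfl, h3⟩
        refine ⟨by omega, by omega, ?_⟩
        have e1 : 2 * z / 2 = z := by omega
        have e2 : 2 * w / 2 = w := by omega
        rw [e1, e2]
        exact h3

end Pool.Agent.Y688.KC
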